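import Pool.Agent.L7h71.GD.Stm
import Pool.Agent.L7h76.GC.Ycc

set_option autoImplicit false

/-!
# Project GD, part YCM: the closure condition, without bounds
-/

namespace Pool.Agent.L7h76.GD

open Set Function FirstOrder FirstOrder.Language
open Pool.Agent.L7h71.GC
open Pool.Agent.L7h71.GD
open Pool.Agent.L7h71.UN (IsEU)
open Pool.Agent.L7h71.GB (pt FamG Gd Fine GYo Emb)
open Pool.Agent.L7h76.GC

variable {L : FirstOrder.Language.{0, 0}}

section

variable {S S₁ : L.Structure ℕ} {z : ℕ → ℕ → ℕ} {x : ℕ → ℕ}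

theorem notFG' (h : EqT S S₁ z x) (hu : ∀ (v : ℕ → ℕ) p, Gen S v p → ∃ i, G1 S (v i) p)
    (hz : ∀ i, TopP S₁ (x i)) (hgen : ∀ p, Gen S₁ x p)
    (hfin : ∀ i : ℕ, ∃ A : Finset ℕ, ∀ j, G1 S₁ (x i) (x j) → G1 S₁ (x j) (x i) → j ∈ A) :
    ¬ FGs S₁ := by
  rintro ⟨l, hl, hfg⟩
  -- each point is in the substructure generated by one of the `x i`, `i ≤ m`
  have h1 : ∀ a : ℕ, ∃ (i : ℕ) (q : L.Term ℕ), tr S₁ (fun _ => x i) q = a := by
    intro a
    obtain ⟨s, hs⟩ := hgen a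
    obtain ⟨m, hm⟩ := depT_exists s
    obtain ⟨i, -, q, hq⟩ := cover h hu hm
    exact ⟨i, q, hq.trans hs⟩
  choose I Q hIQ using h1
  have h2 : ∃ m, ∀ s, I (pt l s) ≤ m := by
    refine ⟨l.toFinset.sup I, fun s => Finset.le_sup (f := I) ?_⟩
    rw [List.mem_toFinset]
    unfold pt
    rcases l with _ | ⟨a, l⟩
    · exact absurd rfl hl
    · rw [List.getD_eq_getElem?_getD]
      rcases hs : (a :: l)[s]? with _ | b
      · simp
      · simp only [Option.getD_some]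
        exact List.mem_of_getElem? hs
  obtain ⟨m, hm⟩ := h2
  have h3 : ∀ p, ∃ i ≤ m, G1 S₁ (x i) p := by
    intro p
    obtain ⟨s, hs⟩ := hfg p
    have h4 : DepT m (s.subst fun k => (Q (pt l k)).relabel fun _ => I (pt l k)) :=
      depT_subst _ _ fun k => depT_one _ (hm k)
    obtain ⟨i, hi, h5⟩ := cover h hu h4
    refine ⟨i, hi, ?_⟩
    rw [Pool.Agent.L7h76.GC.tr_subst] at h5
    have h6 : (fun k => tr S₁ x ((Q (pt l k)).relabel fun _ => I (pt l k))) = pt l := by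
      funext k
      rw [Pool.Agent.L7h76.GC.tr_one, hIQ]
    rw [h6, hs] at h5
    exact h5
  choose J hJ hJG using fun j => h3 (x j)
  -- one `i` for infinitely many `j`
  obtain ⟨i, hi⟩ := Finite.exists_infinite_fiber (fun j : ℕ => (⟨J j, Nat.lt_succ_of_le (hJ j)⟩ : Fin (m + 1)))
  have hinf : ((fun j : ℕ => (⟨J j, Nat.lt_succ_of_le (hJ j)⟩ : Fin (m + 1))) ⁻¹' {i}).Infinite :=
    Set.infinite_coe_iff.1 hi
  obtain ⟨A, hA⟩ := hfin i
  refine hinf (A.finite_toSet.subset fun j hj => ?_)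
  have hj' : J j = i := congrArg Fin.val (Set.mem_singleton_iff.1 hj)
  have h8 := hJG j
  rw [hj'] at h8
  exact Finset.mem_coe.2 (hA j h8 (hz j _ h8))

end

theorem s_YCM (hU : S_ULT) (hG : S_GDC) : S_YCM := by
  classical
  intro L hL E hE T hT hfin S ρ hS hD hρ
  obtain ⟨F₀, hF₀⟩ := hU L hL T hT hfin S hS
  -- the points of `F₀` are values of terms at `ρ i`
  have h1 : ∀ p, ∃ (i : ℕ) (s : L.Term ℕ), tr S (fun _ => ρ i) s = p := by
    intro p
    obtain ⟨y, ⟨s, hs⟩, hy, -⟩ := hD.top p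
    obtain ⟨i, rfl⟩ := (hρ.2 y).1 hy
    exact ⟨i, s, hs⟩
  choose I Q hIQ using h1
  refine ⟨Finset.range (F₀.sup I + 1), fun N₁ hN => ?_⟩
  choose X' hX hFX hgd e he1 he2 using fun t : ℕ => hN (Finset.range (t + 1))
  let z : ℕ → ℕ → ℕ := fun t i => ρ (e t i)
  have hmem : ∀ t i, i ≤ t → i ∈ X' t := fun t i hi =>
    hX t (Finset.mem_range.2 (Nat.lt_succ_of_le hi))
  have hz : ∀ t i, TopP S (z t i) := fun t i => (hρ.2 _).2 ⟨_, rfl⟩
  have hzi : ∀ t i j, i ≤ t → j ≤ t → z t i = z t j → i = j := fun t i j hi hj h =>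
    (he2 t).1 (Finset.mem_coe.2 (hmem t i hi)) (Finset.mem_coe.2 (hmem t j hj)) (hρ.1 h)
  obtain ⟨S₁, x, hS₁, hgen, hlim⟩ := hF₀ z (fun p hp => by
    refine ⟨(Q p).relabel fun _ => I p, fun t => ?_⟩
    rw [Pool.Agent.L7h76.GC.tr_one]
    have h2 : e t (I p) = I p := he1 t (I p) (Finset.mem_range.2
      (Nat.lt_succ_of_le (Finset.le_sup (f := I) hp)))
    have h3 : z t (I p) = ρ (I p) := by simp only [z, h2]
    rw [h3, hIQ]) (fun i j hij => ⟨max i j, fun t ht h => hij (hzi t i j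
      ((le_max_left _ _).trans ht) ((le_max_right _ _).trans ht) h)⟩)
  have key : ∀ (t m : ℕ) (y : Fin (m + 1) → ℕ), (∀ j, y j ≤ t) → ∀ k,
      N₁ m y k = decide (fr S (fun s => z t (tu y s)) (E k)) := by
    intro t m y hy k
    have h2 := (he2 t).2 m y fun j => Finset.mem_coe.2 (hmem t _ (hy j))
    rw [← h2]
    rfl
  -- transfer
  have transfer : ∀ (φ : L.Formula ℕ), φ.IsQF → ∀ m, Dep m φ → ∀ t ≥ m,
      (fr S (z t) φ ↔ fr S₁ x φ) := by
    intro φ hφ m hm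
    have h2 : ∀ t ≥ m, (fr S (z t) φ ↔ N₁ m (fun j => (j : ℕ)) (ix E φ) = true) := by
      intro t ht
      rw [key t m (fun j => (j : ℕ)) (fun j => (Nat.le_of_lt_succ j.2).trans ht), decide_eq_true_iff,
        ix_spec hE hφ]
      refine hm S _ _ fun i hi => ?_
      simp [tu, min_eq_left hi]
    intro t ht
    rw [h2 t ht]
    constructor
    · intro h3
      exact hlim φ hφ ⟨m, fun t' ht' => (h2 t' ht').2 h3⟩
    · intro h3
      by_contra h4
      have h5 := hlim φ.not hφ.not ⟨m, fun t' ht' => (Pool.Agent.L7h76.GC.fr_not _ _ _).2 fun h6 => h4 ((h2 t' ht').1 h6)⟩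
      exact (Pool.Agent.L7h76.GC.fr_not _ _ _).1 h5 h3
  have hEq : EqT S S₁ z x := by
    intro s s' m hs hs' t ht
    have h2 := transfer (s.equal s') (Pool.Agent.L7h76.GC.qf_equal s s') m (dep_equal hs hs') t ht
    rwa [Pool.Agent.L7h76.GC.fr_equal, Pool.Agent.L7h76.GC.fr_equal] at h2
  -- the code
  have hcod : cod E S₁ x = N₁ := by
    funext m y k
    let t : ℕ := Finset.univ.sup y
    have hy : ∀ j, y j ≤ t := fun j => Finset.le_sup (f := y) (Finset.mem_univ j)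
    rw [key t m y hy k]
    have h2 := transfer ((E k).relabel (tu y)) (by
      have := (hE.1 k).relabel (n := 0) (fun i : ℕ => (Sum.inl (tu y i) : ℕ ⊕ Fin 0))
      exact this) t (fun S v v' hv => by
        rw [Pool.Agent.L7h76.GC.fr_relabel, Pool.Agent.L7h76.GC.fr_relabel]
        have h3 : v ∘ tu y = v' ∘ tu y := funext fun s => hv _ (hy _)
        rw [h3]) t le_rfl
    rw [Pool.Agent.L7h76.GC.fr_relabel, Pool.Agent.L7h76.GC.fr_relabel] at h2
    show decide (fr S₁ (x ∘ tu y) (E k)) = decide (fr S (z t ∘ tu y) (E k))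
    exact decide_eq_decide.2 h2.symm
  have hinj : Injective x := by
    intro i j hij
    have h2 := (hEq (Term.var i) (Term.var j) (max i j) (depT_var (le_max_left _ _))
      (depT_var (le_max_right _ _)) (max i j) le_rfl).2 hij
    exact hzi _ i j (le_max_left _ _) (le_max_right _ _) h2
  have hblock : ∀ i : ℕ, ∃ A : Finset ℕ, ∀ j, G1 S₁ (x i) (x j) → G1 S₁ (x j) (x i) → j ∈ A := by
    intro i
    refine ⟨X' i, fun j h2 h3 => ?_⟩
    have h4 := hgd i
    rw [← hcod] at h4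
    obtain ⟨j', hj', hj⟩ := ((hG L hL E hE).2 S₁ x (X' i)).1 h4 i (hmem i i le_rfl) (x j) h2 h3
    rw [← hinj hj]
    exact hj'
  refine ⟨S₁, x, hS₁, notFG' hEq hD.union (fun i => top1 hEq hz hgen i) hgen hblock,
    ⟨hinj, fun w => ⟨fun hw => ?_, ?_⟩⟩, hcod⟩
  · obtain ⟨s, hs⟩ := hgen w
    obtain ⟨m, hm⟩ := depT_exists s
    obtain ⟨i, hi, h2⟩ := cover hEq hD.union hm
    rw [hs] at h2
    have h3 := hgd m
    rw [← hcod] at h3
    obtain ⟨j, -, hj⟩ := ((hG L hL E hE).2 S₁ x (X' m)).1 h3 i (hmem m i hi) w h2 (hw _ h2)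
    exact ⟨j, hj⟩
  · rintro ⟨i, rfl⟩
    exact top1 hEq hz hgen i

end Pool.Agent.L7h76.GD
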